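import Mathlib
import Pool.Agent.N151.RFC.Pairs

set_option autoImplicit false

/-!
Residual finiteness of the one-relator group of a commutator.

Let `Y ∪ {a}` be a free basis of `F(X)` (here `b : Option Y → F(X)`, with `a = b none`), let
`r ∈ ⟨Y⟩` and let `s` be such that `s a ∈ ⟨Y, a⁻¹ r a⟩`. Let `p, q` generate the same subgroup of
`F(X)` as `r, s` (for instance `p = r`, `q = s`, or `p = r s²`, `q = r s³`). Then
`⟨X; [p, q]⟩` is residually finite as soon as `⟨X; p⟩` and `⟨X; q⟩` are, and it is residually finite
exactly when `⟨X; s⟩` is.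
-/

namespace Pool.Agent.Results.MP_3f0e40_al.CentralizerFamily

theorem result {X Y : Type*} (b : FreeGroupBasis (Option Y) (FreeGroup X))
    (r s : FreeGroup X)
    (hr : r ∈ Subgroup.closure (Set.range fun y : Y => b (some y)))
    (hs : s * b none ∈ Subgroup.closure
      (insert ((b none)⁻¹ * r * b none) (Set.range fun y : Y => b (some y))))
    (p q : FreeGroup X) (hpq : Subgroup.closure {p, q} = Subgroup.closure {r, s}) :
    (Group.ResiduallyFinite (PresentedGroup ({p} : Set (FreeGroup X))) →
      Group.ResiduallyFinite (PresentedGroup ({q} : Set (FreeGroup X))) →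
      Group.ResiduallyFinite (PresentedGroup ({p * q * p⁻¹ * q⁻¹} : Set (FreeGroup X)))) ∧
    (Group.ResiduallyFinite (PresentedGroup ({p * q * p⁻¹ * q⁻¹} : Set (FreeGroup X))) ↔
      Group.ResiduallyFinite (PresentedGroup ({s} : Set (FreeGroup X)))) :=
  Pool.Agent.N151.RFC.main_basis_pairs b r s hr hs p q hpq

end Pool.Agent.Results.MP_3f0e40_al.CentralizerFamily
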